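import Pool.Agent.Helper70_RES.Stmts

/-!
# Squad RST: the module FIN

The theorem for the operator with a coupling constant.
-/

set_option autoImplicit false

open scoped InnerProductSpace ComplexConjugate Topology ENNReal
open MeasureTheory Filter

noncomputable section

namespace Pool.Agent.RES.H96

open Pool.Agent.RES Pool.Agent.Anderson Pool.Agent.Helper54.Bal Pool.Agent.QE

theorem map_ac {μ : Measure ℝ} (hμ : μ ≪ volume) {σ : ℝ} (hσ : σ ≠ 0) :
    μ.map (fun v => σ * v) ≪ volume := by
  have h1 : μ.map (fun v => σ * v) ≪ (volume : Measure ℝ).map (fun v => σ * v) :=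
    hμ.map (measurable_const_mul σ)
  refine h1.trans ?_
  rw [Real.map_volume_mul_left hσ]
  exact Measure.smul_absolutelyContinuous

theorem low_map {μ : Measure ℝ} (hμ : Low μ) {σ : ℝ} (hσ : σ ≠ 0) :
    Low (μ.map (fun v => σ * v)) := by
  intro K
  obtain ⟨c, hc, h⟩ := hμ (|σ|⁻¹ * K)
  have hs : 0 < |σ| := abs_pos.mpr hσ
  refine ⟨c * |σ|⁻¹, by positivity, fun A hA hAK => ?_⟩
  rw [Measure.map_apply (measurable_const_mul σ) hA]
  have h1 := h ((fun v => σ * v) ⁻¹' A) (measurable_const_mul σ hA) (by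
    intro v hv
    have h2 := hAK hv
    have h3 : |σ * v| ≤ K := abs_le.mpr h2
    rw [abs_mul] at h3
    apply abs_le.mp
    rw [inv_mul_eq_div, le_div_iff₀ hs]
    linarith)
  have h4 : volume ((fun v => σ * v) ⁻¹' A) = ENNReal.ofReal |σ⁻¹| * volume A := by
    exact Real.volume_preimage_mul_left hσ A
  rw [h4] at h1
  rw [ENNReal.ofReal_mul hc.le, mul_assoc, ← abs_inv]
  exact h1

theorem fin (hfnv : FnvStmt) : FinStmt := by
  intro d μ _ hac hlow σ hσ
  have hm : Measurable fun v : ℝ => σ * v := measurable_const_mul σ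
  have : IsProbabilityMeasure (μ.map fun v => σ * v) :=
    Measure.isProbabilityMeasure_map hm.aemeasurable
  have h1 := hfnv d (μ.map fun v => σ * v) (map_ac hac hσ) (low_map hlow hσ)
  have h2 : (PP d μ).map (fun ξ x => σ * ξ x) = PP d (μ.map fun v => σ * v) :=
    Measure.infinitePi_map_pi (μ := fun _ : Site d => μ) (f := fun _ v => σ * v) (fun _ => hm)
  rw [← h2] at h1
  have h3 := ae_of_ae_map (f := fun (ξ : Cfg d) x => σ * ξ x) (by
    apply Measurable.aemeasurable
    exact measurable_pi_lambda _ fun x => measurable_const.mul (measurable_pi_apply x)) h1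
  filter_upwards [h3] with ξ hξ E ψ hψ
  apply hξ E ψ
  intro x
  have h4 := hψ x
  show lap ψ x + (((σ * ξ x : ℝ) : ℂ) - E) * ψ x = 0
  rw [sub_mul, ← h4]
  ring

end Pool.Agent.RES.H96
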